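import Mathlib
import Pool.Agent.H.MP_999952_gt.A

set_option autoImplicit false

namespace Pool.Agent.H.MP_7a28e0_gt

open Set Filter Topology Cardinal MeasureTheory Pool.Agent.H.MP_5382b1_gt Pool.Agent.H.MP_999952_gt

def sub (x y : V) : Prop := ({n | x n = 1} \ {n | y n = 1}).Finite

def Rich (a : ZMod 2) (x : V) : Prop := ∀ k : ℕ, {m | x (k.pair m) = a}.Infinite

theorem sub_trans {x y z : V} (h : sub x y) (h' : sub y z) : sub x z :=
  (h.union h').subset fun n hn => by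
    by_cases h1 : y n = 1
    · exact Or.inr ⟨h1, hn.2⟩
    · exact Or.inl ⟨hn.1, h1⟩

theorem sub_pair {x y : V} (h : sub x y) (k : ℕ) :
    {m | x (k.pair m) = 1 ∧ y (k.pair m) ≠ 1}.Finite :=
  h.preimage (f := fun m => k.pair m) fun a _ b _ e => (Nat.pair_eq_pair.1 e).2

theorem rich1 {x y : V} (h : sub x y) (hx : Rich 1 x) : Rich 1 y := fun k =>
  ((hx k).sdiff (sub_pair h k)).mono fun m hm => by_contra fun h' => hm.2 ⟨hm.1, h'⟩

theorem rich0 {x y : V} (h : sub x y) (hy : Rich 0 y) : Rich 0 x := fun k =>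
  ((hy k).sdiff (sub_pair h k)).mono fun m hm => z01 _ fun h' => hm.2 ⟨h', by
    rw [show y (k.pair m) = 0 from hm.1]; decide⟩

def tr (r : V) : V := fun n => r n.unpair.1

theorem uniq1 {p x r s : V} (hp : Rich 1 p) (h : sub p (x + tr r)) (h' : sub p (x + tr s)) :
    r = s := by
  funext k
  obtain ⟨m, h1, h2⟩ := ((hp k).sdiff ((sub_pair h k).union (sub_pair h' k))).nonempty
  simp only [mem_union, mem_ofPred_eq, not_or, not_and, not_not, ne_eq, Pi.add_apply, tr,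
    Nat.unpair_pair] at h1 h2
  exact add_left_cancel ((h2.1 h1).trans (h2.2 h1).symm)

theorem uniq0 {q x r s : V} (hq : Rich 0 q) (h : sub (x + tr r) q) (h' : sub (x + tr s) q) :
    r = s := by
  funext k
  obtain ⟨m, h1, h2⟩ := ((hq k).sdiff ((sub_pair h k).union (sub_pair h' k))).nonempty
  simp only [mem_union, mem_ofPred_eq, not_or, not_and', Pi.add_apply, tr,
    Nat.unpair_pair] at h1 h2
  have h3 : q (k.pair m) ≠ 1 := by rw [h1]; decide
  exact add_left_cancel ((z01 _ (h2.1 h3)).trans (z01 _ (h2.2 h3)).symm)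

theorem cfin (a : ZMod 2) : {z : V | {m | z m = a}.Finite}.Countable := by
  refine Countable.ofPred_finite.preimage (f := fun z : V => {m | z m = a}) fun z w h => ?_
  funext m
  have h1 : z m = a ↔ w m = a := Set.ext_iff.1 h m
  have : ∀ a b c : ZMod 2, (b = a ↔ c = a) → b = c := by decide
  exact this _ _ _ h1

theorem null_cnt {C : Set V} (hC : C.Countable) : μ C = 0 := by
  rw [← biUnion_of_singleton C]
  exact (measure_biUnion_null_iff hC).2 fun y _ => null1 y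

theorem rich_ae (a : ZMod 2) : MeasurableSet {x | Rich a x} ∧ μ {x | Rich a x}ᶜ = 0 := by
  let π : ℕ → V →+ V := fun k =>
    { toFun := fun x m => x (k.pair m), map_zero' := rfl, map_add' := fun _ _ => rfl }
  have h1 : ∀ k, MeasurePreserving (π k) μ μ := fun k =>
    AddMonoidHom.measurePreserving (continuous_pi fun m => continuous_apply _)
      (fun y => ⟨fun n => y n.unpair.2, funext fun m => by simp [π]⟩) rfl
  have h2 : {x | Rich a x}ᶜ = ⋃ k, π k ⁻¹' {z : V | {m | z m = a}.Finite} := by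
    ext x
    simp [Rich, π]
  refine ⟨MeasurableSet.of_compl ?_, ?_⟩ <;> rw [h2]
  · exact MeasurableSet.iUnion fun k => (h1 k).measurable (cfin a).measurableSet
  · exact measure_iUnion_null fun k => by
      rw [(h1 k).measure_preimage (cfin a).measurableSet.nullMeasurableSet, null_cnt (cfin a)]

theorem undecided (Q : Set V) (hQ : MeasurableSet Q) (hQ0 : μ Q ≠ 0) {J : Type} (hJ : #J < 𝔠)
    (p q : J → V) (hp : ∀ j, Rich 1 (p j)) : ∃ x ∈ Q, Rich 1 x ∧ Rich 0 x ∧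
      ∀ j, ¬ sub (p j) x ∧ (Rich 0 (q j) → ¬ sub x (q j)) := by
  let Q' := Q ∩ ({x | Rich 1 x} ∩ {x | Rich 0 x})
  have h1 : MeasurableSet Q' := hQ.inter ((rich_ae 1).1.inter (rich_ae 0).1)
  have h2 : μ Q' ≠ 0 := fun h => hQ0 (measure_mono_null (fun x hx => by
    by_contra h3
    simp only [mem_union, not_or, mem_compl_iff, not_not] at h3
    exact h3.1 ⟨hx, h3.2⟩) (measure_union_null h (measure_union_null (rich_ae 1).2 (rich_ae 0).2)))
  have ht : Continuous tr := continuous_pi fun n => continuous_apply _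
  have h3 : Measurable fun z : V × V => z.1 + tr z.2 := by fun_prop
  obtain ⟨x, hx⟩ : ∃ x, μ {r | x + tr r ∈ Q'} ≠ 0 := by
    by_contra h
    push Not at h
    have h4 : ∀ᵐ x ∂μ, ∀ᵐ r ∂μ, x + tr r ∉ Q' := Eventually.of_forall fun x => by
      simpa [ae_iff] using h x
    obtain ⟨r, hr⟩ := ((Measure.ae_ae_comm (p := fun x r => x + tr r ∉ Q') (h3 h1).compl).1 h4).exists
    refine h2 ?_
    rw [← measure_preimage_add_right μ (tr r)]
    simp only [ae_iff, not_not] at hr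
    exact hr
  obtain ⟨r, hr, h4⟩ := avoid (fun _ => id) (fun _ => measurable_id) (fun _ => null1) _
    ⟨(measurable_const.add ht.measurable) h1, hx⟩
    (⋃ j, {r | sub (p j) (x + tr r)} ∪ {r | Rich 0 (q j) ∧ sub (x + tr r) (q j)}) (by
      refine (mk_iUnion_le _).trans_lt (mul_lt_of_lt aleph0_le_continuum hJ ?_)
      refine lt_of_le_of_lt (ciSup_le' fun j => ?_) aleph0_lt_continuum
      refine le_aleph0_iff_set_countable.2 (Countable.union ?_ ?_)
      · exact Set.Subsingleton.countable fun r hr s hs => uniq1 (hp j) hr hs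
      · exact Set.Subsingleton.countable fun r hr s hs => uniq0 hr.1 hr.2 hs.2)
  have h5 := h4 0
  simp only [id, mem_iUnion, mem_union, mem_ofPred_eq, not_exists, not_or, not_and] at h5
  exact ⟨_, hr.1, hr.2.1, hr.2.2, h5⟩

theorem core : ∃ S : Set V, (∀ x ∈ S, Rich 1 x) ∧ (∀ x ∈ S, ∀ y, sub x y → y ∈ S) ∧
    ∀ f : V → V, Measurable f → μ {x | {n | (f x + x) n = 1}.Infinite} ≠ 0 →
      ∃ x, ¬ (x ∈ S ↔ f x ∈ S) := by
  classical
  let ι := {f : {f : V → V | Measurable f} // μ {x | {n | (f.1 x + x) n = 1}.Infinite} ≠ 0}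
  have : Nonempty ι := ⟨⟨⟨fun x => x + 1, measurable_id.add_const 1⟩, by
    have : ∀ x : V, x + 1 + x = 1 := fun x => by rw [add_right_comm, two, zero_add]
    simp only [this]
    simp [infinite_univ]⟩⟩
  let I := (𝔠 : Cardinal.{0}).ord.ToType
  have hI : #I = 𝔠 := mk_ord_toType _
  obtain ⟨j⟩ := (Cardinal.le_def ι I).1 (((mk_subtype_le _).trans card_fun).trans hI.ge)
  let e := Function.invFun j
  have he : ∀ i, e (j i) = i := Function.leftInverse_invFun j.injective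
  obtain ⟨g, hg⟩ := Pool.Agent.H.MP_c74059_gt.wf_choice (I := I) (A := V × V)
    (fun t g a => (a.2 = (e t).1.1 a.1 ∨ a.1 = (e t).1.1 a.2) ∧ Rich 1 a.1 ∧
      (Rich 1 a.2 → Rich 0 a.2) ∧ ¬ sub a.1 a.2 ∧
      ∀ u < t, ¬ sub a.1 (g u).2 ∧ ¬ sub (g u).1 a.2)
    (fun t f g a h hP => ⟨hP.1, hP.2.1, hP.2.2.1, hP.2.2.2.1, fun u hu => h u hu ▸ hP.2.2.2.2 u hu⟩)
    (fun t g ih => by
      have hlt : #(Iio t) < 𝔠 := by
        have := mk_Iio_lt t (by rw [hI]; simp [I])
        rwa [hI] at this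
      have h0 : ∀ u < t, ∀ v < t, ¬ sub (g u).1 (g v).2 := by
        intro u hu v hv
        rcases lt_trichotomy u v with h | rfl | h
        · exact ((ih v hv).2.2.2.2 u h).2
        · exact (ih u hu).2.2.2.1
        · exact ((ih u hu).2.2.2.2 v h).1
      obtain ⟨⟨f, hf⟩, hf0⟩ := e t
      obtain ⟨x, hx, h1, h2, h3⟩ := undecided _
        ((hf.add measurable_id) (cfin 1).measurableSet).compl hf0 hlt
        (fun u => (g u).1) (fun u => (g u).2) fun u => (ih u.1 u.2).2.1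
      have h4 : ∀ u < t, ¬ sub x (g u).2 := fun u hu h =>
        (h3 ⟨u, hu⟩).2 ((ih u hu).2.2.1 (rich1 h h1)) h
      have h5 : ∀ u < t, ¬ sub (g u).1 x := fun u hu => (h3 ⟨u, hu⟩).1
      by_cases k1 : Rich 1 (f x) → Rich 0 (f x)
      · by_cases k2 : ∃ u < t, sub (g u).1 (f x)
        · obtain ⟨u, hu, k2⟩ := k2
          exact ⟨(f x, x), Or.inr rfl, rich1 k2 (ih u hu).2.1, fun _ => h2,
            fun h => h5 u hu (sub_trans k2 h),
            fun v hv => ⟨fun h => h0 u hu v hv (sub_trans k2 h), h5 v hv⟩⟩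
        · by_cases k3 : sub x (f x)
          · refine ⟨(f x, x), Or.inr rfl, rich1 k3 h1, fun _ => h2, fun h => hx ?_,
              fun v hv => ⟨fun h => h4 v hv (sub_trans k3 h), h5 v hv⟩⟩
            refine (Finite.union k3 h).subset fun n hn => ?_
            have : ∀ a b : ZMod 2, a + b = 1 → (b = 1 ∧ ¬ a = 1) ∨ (a = 1 ∧ ¬ b = 1) := by decide
            exact this _ _ hn
          · exact ⟨(x, f x), Or.inl rfl, h1, k1, k3,
              fun v hv => ⟨h4 v hv, fun h => k2 ⟨v, hv, h⟩⟩⟩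
      · rw [Classical.not_imp] at k1
        exact ⟨(f x, x), Or.inr rfl, k1.1, fun _ => h2, fun h => k1.2 (rich0 h h2),
          fun v hv => ⟨fun h => k1.2 (rich0 h ((ih v hv).2.2.1 (rich1 h k1.1))), h5 v hv⟩⟩)
  have h0 : ∀ u v, ¬ sub (g u).1 (g v).2 := by
    intro u v
    rcases lt_trichotomy u v with h | rfl | h
    · exact ((hg v).2.2.2.2 u h).2
    · exact (hg u).2.2.2.1
    · exact ((hg u).2.2.2.2 v h).1
  refine ⟨{y | ∃ u, sub (g u).1 y}, fun x ⟨u, hu⟩ => rich1 hu (hg u).2.1,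
    fun x ⟨u, hu⟩ y h => ⟨u, sub_trans hu h⟩, fun f hf h => ?_⟩
  have h1 := (hg (j ⟨⟨f, hf⟩, h⟩)).1
  rw [he] at h1
  have h2 : (g (j ⟨⟨f, hf⟩, h⟩)).1 ∈ {y | ∃ u, sub (g u).1 y} :=
    ⟨j ⟨⟨f, hf⟩, h⟩, by simp [sub]⟩
  have h3 : (g (j ⟨⟨f, hf⟩, h⟩)).2 ∉ {y | ∃ u, sub (g u).1 y} := fun ⟨u, hu⟩ => h0 u _ hu
  rcases h1 with h1 | h1
  · exact ⟨_, fun h4 => h3 (h1 ▸ h4.1 h2)⟩
  · rw [h1] at h2
    exact ⟨_, fun h4 => h3 (h4.2 h2)⟩

end Pool.Agent.H.MP_7a28e0_gt
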